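import Pool.Agent.W91.BH.Stm

set_option autoImplicit false

open MeasureTheory
open scoped ENNReal ContDiff

namespace Pool.Agent.W306.BH

open Pool.Agent.W91.BH

noncomputable section

theorem atom_cont {n M N : ℕ} {Q : Idx n} {a : E n → ℝ} (h : IsAtom n M N Q a) :
    Continuous a := h.smooth.continuous

theorem atom_compact {n M N : ℕ} {Q : Idx n} {a : E n → ℝ} (h : IsAtom n M N Q a) :
    HasCompactSupport a := by
  set e := (EuclideanSpace.equiv (Fin n) ℝ).toHomeomorph with he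
  have hk : (0 : ℝ) < (2 : ℝ) ^ Q.1 := by positivity
  have hK : IsCompact (e ⁻¹' (Set.Icc (fun i => ((2 : ℝ) ^ Q.1)⁻¹ * ((Q.2 i : ℝ) + 1 / 2 - 3 / 2))
      (fun i => ((2 : ℝ) ^ Q.1)⁻¹ * ((Q.2 i : ℝ) + 1 / 2 + 3 / 2)))) :=
    e.isCompact_preimage.2 isCompact_Icc
  refine HasCompactSupport.of_support_subset_isCompact hK ?_
  intro x hx
  have h1 := h.supp x hx
  rw [Set.mem_preimage, Set.mem_Icc]
  constructor
  · intro i
    have h2 := (abs_le.1 (h1 i)).1
    change ((2 : ℝ) ^ Q.1)⁻¹ * ((Q.2 i : ℝ) + 1 / 2 - 3 / 2) ≤ x i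
    rw [inv_mul_le_iff₀ hk]
    linarith
  · intro i
    have h2 := (abs_le.1 (h1 i)).2
    change x i ≤ ((2 : ℝ) ^ Q.1)⁻¹ * ((Q.2 i : ℝ) + 1 / 2 + 3 / 2)
    rw [← div_eq_inv_mul, le_div_iff₀ hk]
    linarith

theorem atom_int {n M N : ℕ} {Q : Idx n} {a : E n → ℝ} (h : IsAtom n M N Q a) {g : E n → ℝ}
    (hg : Continuous g) : Integrable (fun x => g x * a x) :=
  (hg.mul (atom_cont h)).integrable_of_hasCompactSupport (atom_compact h).mul_left

theorem comb_atom {n M N : ℕ} {Q : Idx n} {ι : Type} (T : Finset ι) (t : ι → ℝ)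
    (b : ι → E n → ℝ) (ht : ∀ i ∈ T, 0 ≤ t i) (hs : ∑ i ∈ T, t i ≤ 1)
    (hb : ∀ i ∈ T, IsAtom n M N Q (b i)) :
    IsAtom n M N Q (fun x => ∑ i ∈ T, t i * b i x) := by
  refine ⟨?_, ?_, ?_, ?_⟩
  · exact ContDiff.sum (fun i hi => contDiff_const.mul (hb i hi).smooth)
  · intro x hx
    obtain ⟨i, hi, h⟩ := Finset.exists_ne_zero_of_sum_ne_zero hx
    exact (hb i hi).supp x (right_ne_zero_of_mul h)
  · intro m hm x
    have hm' : ((m : ℕ) : WithTop ℕ∞) ≤ ((⊤ : ℕ∞) : WithTop ℕ∞) := by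
      exact_mod_cast (le_top : ((m : ℕ) : ℕ∞) ≤ ⊤)
    have h1 : ∀ i ∈ T, ContDiffAt ℝ m (fun x => t i • b i x) x := fun i hi =>
      ((contDiff_const (c := t i)).smul ((hb i hi).smooth.of_le hm')).contDiffAt
    have h2 : iteratedFDeriv ℝ m (fun x => ∑ i ∈ T, t i * b i x) x =
        ∑ i ∈ T, t i • iteratedFDeriv ℝ m (b i) x := by
      have := iteratedFDeriv_fun_sum_apply (𝕜 := ℝ) (n := m) (x := x) h1
      simp only [smul_eq_mul] at this
      rw [this]
      refine Finset.sum_congr rfl fun i hi => ?_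
      exact iteratedFDeriv_const_smul_apply' (a := t i)
        ((hb i hi).smooth.of_le hm').contDiffAt
    rw [h2]
    calc ‖∑ i ∈ T, t i • iteratedFDeriv ℝ m (b i) x‖
        ≤ ∑ i ∈ T, ‖t i • iteratedFDeriv ℝ m (b i) x‖ := norm_sum_le _ _
      _ ≤ ∑ i ∈ T, t i * ((2 : ℝ) ^ Q.1) ^ m := by
          refine Finset.sum_le_sum fun i hi => ?_
          rw [norm_smul, Real.norm_of_nonneg (ht i hi)]
          exact mul_le_mul_of_nonneg_left ((hb i hi).bound m hm x) (ht i hi)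
      _ = (∑ i ∈ T, t i) * ((2 : ℝ) ^ Q.1) ^ m := by rw [Finset.sum_mul]
      _ ≤ 1 * ((2 : ℝ) ^ Q.1) ^ m := mul_le_mul_of_nonneg_right hs (by positivity)
      _ = _ := one_mul _
  · intro hQ β hβ
    have h1 : ∀ x : E n, (∏ i, x i ^ β i) * ∑ i ∈ T, t i * b i x =
        ∑ i ∈ T, t i * ((∏ i, x i ^ β i) * b i x) := by
      intro x
      rw [Finset.mul_sum]
      exact Finset.sum_congr rfl fun i _ => by ring
    simp only [h1]
    have hc : Continuous fun x : E n => ∏ i, x i ^ β i := by fun_prop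
    rw [integral_finsetSum _ (fun i hi => (atom_int (hb i hi) hc).const_mul (t i))]
    refine Finset.sum_eq_zero fun i hi => ?_
    rw [integral_const_mul, (hb i hi).moment hQ β hβ, mul_zero]

theorem rpow_sum_le {ι : Type} (T : Finset ι) (x : ι → ℝ) (p : ℝ) (hp0 : 0 < p) (hp1 : p ≤ 1)
    (hx : ∀ i ∈ T, 0 ≤ x i) : (∑ i ∈ T, x i) ^ p ≤ ∑ i ∈ T, x i ^ p := by
  classical
  induction T using Finset.induction_on with
  | empty => simp [Real.zero_rpow hp0.ne']
  | insert a s ha ih =>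
    rw [Finset.sum_insert ha, Finset.sum_insert ha]
    have h1 : 0 ≤ ∑ i ∈ s, x i := Finset.sum_nonneg fun i hi => hx i (Finset.mem_insert_of_mem hi)
    exact (Real.rpow_add_le_add_rpow (hx a (Finset.mem_insert_self _ _)) h1 hp0.le hp1).trans
      (add_le_add le_rfl (ih fun i hi => hx i (Finset.mem_insert_of_mem hi)))

theorem rep (n M N : ℕ) (α p : ℝ) (ι : Type) (F : Finset ι) (π : ι → Idx n) (c : ι → ℝ)
    (b : ι → E n → ℝ) (hp0 : 0 < p) (hp1 : p ≤ 1) (hc : ∀ i ∈ F, 0 ≤ c i)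
    (hb : ∀ i ∈ F, IsAtom n M N (π i) (b i)) :
    ∃ s : Idx n → ℝ, Rep n M N (fun x => ∑ i ∈ F, c i * b i x) s ∧
      bCost n α p s ≤ ∑ i ∈ F, ENNReal.ofReal (((2 : ℝ) ^ (((π i).1 : ℝ) * α) * c i) ^ p) *
        ENNReal.ofReal ((2 : ℝ) ^ (-(((π i).1 : ℝ) * n))) := by
  classical
  set T : Idx n → Finset ι := fun P => F.filter (fun i => π i = P) with hT
  have hTF : ∀ P, ∀ i ∈ T P, i ∈ F ∧ π i = P := fun P i hi => Finset.mem_filter.1 hi
  set s : Idx n → ℝ := fun P => ∑ i ∈ T P, c i with hs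
  have hs0 : ∀ P, 0 ≤ s P := fun P => Finset.sum_nonneg fun i hi => hc i (hTF P i hi).1
  have hsempty : ∀ P, P ∉ F.image π → T P = ∅ := by
    intro P hP
    refine Finset.filter_eq_empty_iff.2 fun i hi h => hP ?_
    rw [← h]
    exact Finset.mem_image_of_mem π hi
  refine ⟨s, ⟨fun P x => ∑ i ∈ T P, (c i / s P) * b i x, ?_, ?_⟩, ?_⟩
  · intro P
    refine comb_atom (T P) (fun i => c i / s P) b
      (fun i hi => div_nonneg (hc i (hTF P i hi).1) (hs0 P)) ?_ ?_
    · rw [← Finset.sum_div]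
      exact div_self_le_one _
    · intro i hi
      have := hb i (hTF P i hi).1
      rwa [(hTF P i hi).2] at this
  · intro φ
    have hφ : Continuous fun x => φ x := φ.continuous
    have hint : ∀ i ∈ F, Integrable (fun x => b i x * φ x) := fun i hi => by
      have := atom_int (hb i hi) hφ
      simpa only [mul_comm] using this
    have hterm : ∀ P, s P * ∫ x, (∑ i ∈ T P, (c i / s P) * b i x) * φ x =
        ∑ i ∈ T P, c i * ∫ x, b i x * φ x := by
      intro P
      have h1 : ∀ x, (∑ i ∈ T P, (c i / s P) * b i x) * φ x =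
          ∑ i ∈ T P, (c i / s P) * (b i x * φ x) := by
        intro x
        rw [Finset.sum_mul]
        exact Finset.sum_congr rfl fun i _ => by ring
      simp only [h1]
      rw [integral_finsetSum _ (fun i hi => (hint i (hTF P i hi).1).const_mul _),
        Finset.mul_sum]
      refine Finset.sum_congr rfl fun i hi => ?_
      rw [integral_const_mul]
      by_cases h0 : s P = 0
      · have : c i = 0 := (Finset.sum_eq_zero_iff_of_nonneg
          (fun i hi => hc i (hTF P i hi).1)).1 h0 i hi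
        rw [this, h0]
        simp
      · rw [← mul_assoc, mul_div_cancel₀ _ h0]
    have htot : ∫ x, (∑ i ∈ F, c i * b i x) * φ x = ∑ P ∈ F.image π,
        ∑ i ∈ T P, c i * ∫ x, b i x * φ x := by
      rw [hT, Finset.sum_fiberwise_of_maps_to (fun i hi => Finset.mem_image_of_mem π hi)]
      have h1 : ∀ x, (∑ i ∈ F, c i * b i x) * φ x = ∑ i ∈ F, c i * (b i x * φ x) := by
        intro x
        rw [Finset.sum_mul]
        exact Finset.sum_congr rfl fun i _ => by ring
      simp only [h1]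
      rw [integral_finsetSum _ (fun i hi => (hint i hi).const_mul _)]
      exact Finset.sum_congr rfl fun i _ => integral_const_mul _ _
    rw [htot]
    have hz : ∀ P ∉ F.image π, s P * ∫ x, (∑ i ∈ T P, (c i / s P) * b i x) * φ x = 0 := by
      intro P hP
      rw [hterm, hsempty P hP, Finset.sum_empty]
    have := hasSum_sum_of_ne_finset_zero (L := SummationFilter.unconditional (Idx n)) hz
    rw [Finset.sum_congr rfl (fun P _ => hterm P)] at this
    exact this
  · unfold bCost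
    rw [tsum_eq_sum (s := F.image π) (fun P hP => by
      have : s P = 0 := by simp only [hs]; rw [hsempty P hP, Finset.sum_empty]
      rw [this, abs_zero, mul_zero, Real.zero_rpow hp0.ne', ENNReal.ofReal_zero, zero_mul])]
    have : ∀ P ∈ F.image π, ENNReal.ofReal (((2 : ℝ) ^ ((P.1 : ℝ) * α) * |s P|) ^ p) *
        ENNReal.ofReal ((2 : ℝ) ^ (-((P.1 : ℝ) * n))) ≤
        ∑ i ∈ T P, ENNReal.ofReal (((2 : ℝ) ^ (((π i).1 : ℝ) * α) * c i) ^ p) *
        ENNReal.ofReal ((2 : ℝ) ^ (-(((π i).1 : ℝ) * n))) := by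
      intro P _
      have h1 : ∑ i ∈ T P, ENNReal.ofReal (((2 : ℝ) ^ (((π i).1 : ℝ) * α) * c i) ^ p) *
          ENNReal.ofReal ((2 : ℝ) ^ (-(((π i).1 : ℝ) * n))) =
          ∑ i ∈ T P, ENNReal.ofReal (((2 : ℝ) ^ ((P.1 : ℝ) * α) * c i) ^ p) *
          ENNReal.ofReal ((2 : ℝ) ^ (-((P.1 : ℝ) * n))) :=
        Finset.sum_congr rfl fun i hi => by rw [(hTF P i hi).2]
      have hpos : (0 : ℝ) ≤ (2 : ℝ) ^ ((P.1 : ℝ) * α) := by positivity
      rw [h1, ← Finset.sum_mul, ← ENNReal.ofReal_sum_of_nonneg (fun i hi =>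
        Real.rpow_nonneg (mul_nonneg hpos (hc i (hTF P i hi).1)) _)]
      refine mul_le_mul_left (ENNReal.ofReal_le_ofReal ?_) _
      rw [abs_of_nonneg (hs0 P)]
      simp only [hs]
      rw [Finset.mul_sum]
      exact rpow_sum_le _ _ _ hp0 hp1 fun i hi => mul_nonneg hpos (hc i (hTF P i hi).1)
    refine (Finset.sum_le_sum this).trans (le_of_eq ?_)
    rw [hT, Finset.sum_fiberwise_of_maps_to (fun i hi => Finset.mem_image_of_mem π hi)]

end

end Pool.Agent.W306.BH
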